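import Pool.Agent.TH236.Circ3

set_option autoImplicit false

open Complex Metric Set Pool.Agent.TH236.Circ

namespace Pool.Agent.Results.MP_d9eea5_an.Discs

/-- Level sets of Green's functions and circular symmetrisation.

(1) The inclusion `(D_l)^* ⊆ (D^*)_l` is not true for all domains `D` and levels `l`.

(2) For discs `D = B(C, ρ)` with `a ∈ D`, `a > 0`, the inclusion holds at all levels if and only if
the centre `C` lies on `[0, ∞)` or `a + |C| ≥ ρ`. -/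
theorem result :
    (¬ ∀ (D : Set ℂ) (a : ℝ) (g gs : ℂ → ℝ), 0 < a → IsGreen D (a : ℂ) g →
      IsGreen (circSymm D) (a : ℂ) gs →
      ∀ l : ℝ, 0 < l → circSymm (level D (a : ℂ) g l) ⊆ level (circSymm D) (a : ℂ) gs l) ∧
    (∀ (C : ℂ) (ρ a : ℝ), 0 < a → (a : ℂ) ∈ ball C ρ →
      circSymm (ball C ρ) = ball ((‖C‖ : ℝ) : ℂ) ρ ∧
      (∃ g : ℂ → ℝ, IsGreen (ball C ρ) (a : ℂ) g) ∧
      (∃ gs : ℂ → ℝ, IsGreen (circSymm (ball C ρ)) (a : ℂ) gs) ∧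
      ∀ g gs : ℂ → ℝ, IsGreen (ball C ρ) (a : ℂ) g → IsGreen (circSymm (ball C ρ)) (a : ℂ) gs →
        ((∀ l : ℝ, 0 < l → circSymm (level (ball C ρ) (a : ℂ) g l)
            ⊆ level (circSymm (ball C ρ)) (a : ℂ) gs l) ↔
          (C = ((‖C‖ : ℝ) : ℂ) ∨ ρ ≤ a + ‖C‖))) := by
  have main : ∀ (C : ℂ) (ρ a : ℝ), 0 < a → (a : ℂ) ∈ ball C ρ →
      circSymm (ball C ρ) = ball ((‖C‖ : ℝ) : ℂ) ρ ∧
      (∃ g : ℂ → ℝ, IsGreen (ball C ρ) (a : ℂ) g) ∧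
      (∃ gs : ℂ → ℝ, IsGreen (circSymm (ball C ρ)) (a : ℂ) gs) ∧
      ∀ g gs : ℂ → ℝ, IsGreen (ball C ρ) (a : ℂ) g → IsGreen (circSymm (ball C ρ)) (a : ℂ) gs →
        ((∀ l : ℝ, 0 < l → circSymm (level (ball C ρ) (a : ℂ) g l)
            ⊆ level (circSymm (ball C ρ)) (a : ℂ) gs l) ↔
          (C = ((‖C‖ : ℝ) : ℂ) ∨ ρ ≤ a + ‖C‖)) := by
    intro C ρ a ha0 ha
    have hρ : 0 < ρ := pos_of_mem_ball ha
    have hs := circSymm_ball C hρ
    have hg := isGreen_ball ha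
    have hgs := isGreen_ball (mem_symm_ball ha0 ha)
    refine ⟨hs, ⟨_, hg⟩, ⟨_, hs ▸ hgs⟩, ?_⟩
    intro g gs h h'
    rw [hs] at h' ⊢
    rw [← disc_iff ha0 ha]
    constructor
    · intro H l hl
      rw [← level_congr h hg l, ← level_congr h' hgs l]
      exact H l hl
    · intro H l hl
      rw [level_congr h hg l, level_congr h' hgs l]
      exact H l hl
  refine ⟨?_, main⟩
  intro H
  have hn : ‖(-(1 / 4 : ℝ) : ℂ)‖ = 1 / 4 := by
    rw [norm_neg, Complex.norm_real]; norm_num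
  have ha : (((1 / 4 : ℝ)) : ℂ) ∈ ball (-(1 / 4 : ℝ) : ℂ) 1 := by
    rw [mem_ball, dist_eq_norm, sub_neg_eq_add, ← Complex.ofReal_add, Complex.norm_real]
    norm_num
  obtain ⟨-, ⟨g, hg⟩, ⟨gs, hgs⟩, hiff⟩ := main (-(1 / 4 : ℝ) : ℂ) 1 (1 / 4) (by norm_num) ha
  rcases (hiff g gs hg hgs).1 (fun l hl => H _ _ g gs (by norm_num) hg hgs l hl) with h | h
  · rw [hn] at h
    have h2 := congrArg Complex.re h
    simp at h2
    norm_num at h2
  · rw [hn] at h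
    norm_num at h

end Pool.Agent.Results.MP_d9eea5_an.Discs
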